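import Mathlib

set_option autoImplicit false
open MeasureTheory Filter Topology Matrix

namespace Pool.Agent.X145.Sup

/-- The normalised variance profile `V = (σ_ij²)/n`. -/
noncomputable def prof {n : ℕ} (A : Matrix (Fin n) (Fin n) ℝ) : Matrix (Fin n) (Fin n) ℝ :=
  Matrix.of fun i j => A i j ^ 2 / n

/-- The spectral radius of a real square matrix (largest modulus of a complex eigenvalue). -/
noncomputable def rho {n : ℕ} (V : Matrix (Fin n) (Fin n) ℝ) : ℝ :=
  (spectralRadius ℂ (V.map (fun x : ℝ => (x : ℂ)))).toReal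

/-- `(q, q̃)` is a solution in `[0,∞)^n` of the Master Equations with parameter `s`. -/
structure IsSol {n : ℕ} (V : Matrix (Fin n) (Fin n) ℝ) (s : ℝ) (q qt : Fin n → ℝ) : Prop where
  nonneg_q : ∀ i, 0 ≤ q i
  nonneg_qt : ∀ i, 0 ≤ qt i
  eq_q : ∀ i, q i = (Vᵀ *ᵥ q) i / (s ^ 2 + (V *ᵥ qt) i * (Vᵀ *ᵥ q) i)
  eq_qt : ∀ i, qt i = (V *ᵥ qt) i / (s ^ 2 + (V *ᵥ qt) i * (Vᵀ *ᵥ q) i)
  sum_eq : ∑ i, q i = ∑ i, qt i

/-- `A` is irreducible: the digraph of positive entries is strongly connected. -/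
def Irr {n : ℕ} (A : Matrix (Fin n) (Fin n) ℝ) : Prop :=
  ∀ i j, Relation.ReflTransGen (fun a b => 0 < A a b) i j

/-- the function `F = 1 - (1/n) ⟨q, V q̃⟩` -/
noncomputable def FF {n : ℕ} (V : Matrix (Fin n) (Fin n) ℝ) (q qt : Fin n → ℝ) : ℝ :=
  1 - (1 / (n : ℝ)) * ∑ i, q i * (V *ᵥ qt) i

section
variable {n : ℕ}

theorem jensen (V : Matrix (Fin n) (Fin n) ℝ) (hV : ∀ i j, 0 ≤ V i j)
    (x x' y z z' : Fin n → ℝ) (hx : ∀ i, 0 < x i) (hx' : ∀ i, 0 < x' i) (hy : ∀ i, 0 < y i)
    (hz : ∀ i, 0 < z i) (hz' : ∀ i, 0 < z' i)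
    (h1 : ∀ i, x i = z i * ∑ j, V i j * x j) (h2 : ∀ i, x' i = z' i * ∑ j, V i j * x' j)
    (h3 : ∀ j, y j = ∑ i, V i j * (z i * y i)) :
    ∑ i, y i * x i * (Real.log (z' i) - Real.log (z i)) ≤ 0 := by
  have key : ∀ i, Real.log (x' i / x i) ≥ (Real.log (z' i) - Real.log (z i)) +
      ∑ j, (z i * V i j * x j / x i) * Real.log (x' j / x j) := by
    intro i
    have hP0 : ∀ j ∈ Finset.univ, 0 ≤ z i * V i j * x j / x i := fun j _ =>
      div_nonneg (mul_nonneg (mul_nonneg (hz i).le (hV i j)) (hx j).le) (hx i).le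
    have hP1 : ∑ j, z i * V i j * x j / x i = 1 := by
      rw [← Finset.sum_div, div_eq_one_iff_eq (hx i).ne']
      conv_rhs => rw [h1 i, Finset.mul_sum]
      exact Finset.sum_congr rfl fun j _ => by ring
    have hJ := strictConcaveOn_log_Ioi.concaveOn.le_map_sum (t := Finset.univ)
      (w := fun j => z i * V i j * x j / x i) (p := fun j => x' j / x j) hP0 hP1
      (fun j _ => Set.mem_Ioi.2 (div_pos (hx' j) (hx j)))
    simp only [smul_eq_mul] at hJ
    have e1 : ∑ j, z i * V i j * x j / x i * (x' j / x j) = z i / z' i * (x' i / x i) := by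
      have e2 : ∑ j, z i * V i j * x j / x i * (x' j / x j) = z i / x i * ∑ j, V i j * x' j := by
        rw [Finset.mul_sum]
        refine Finset.sum_congr rfl fun j _ => ?_
        have := (hx j).ne'
        field_simp
      rw [e2]
      have e3 : ∑ j, V i j * x' j = x' i / z' i := by
        rw [eq_div_iff (hz' i).ne', mul_comm, ← h2 i]
      rw [e3]
      ring
    rw [e1, Real.log_mul (div_pos (hz i) (hz' i)).ne' (div_pos (hx' i) (hx i)).ne',
      Real.log_div (hz i).ne' (hz' i).ne'] at hJ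
    linarith
  have hsum := Finset.sum_le_sum fun i (_ : i ∈ (Finset.univ : Finset (Fin n))) =>
    mul_le_mul_of_nonneg_left (key i) (mul_pos (hy i) (hx i)).le
  simp only [mul_add] at hsum
  rw [Finset.sum_add_distrib] at hsum
  have hst : ∑ i, y i * x i * ∑ j, (z i * V i j * x j / x i) * Real.log (x' j / x j) =
      ∑ j, y j * x j * Real.log (x' j / x j) := by
    have e1 : ∀ i, y i * x i * ∑ j, (z i * V i j * x j / x i) * Real.log (x' j / x j) =
        ∑ j, (V i j * (z i * y i)) * (x j * Real.log (x' j / x j)) := by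
      intro i
      rw [Finset.mul_sum]
      refine Finset.sum_congr rfl fun j _ => ?_
      have := (hx i).ne'
      field_simp
    rw [Finset.sum_congr rfl fun i _ => e1 i, Finset.sum_comm]
    refine Finset.sum_congr rfl fun j _ => ?_
    rw [← Finset.sum_mul, ← h3 j]
    ring
  rw [hst] at hsum
  linarith

theorem IsSol.pos {A : Matrix (Fin n) (Fin n) ℝ} {s : ℝ} {q qt : Fin n → ℝ} (hA : ∀ i j, 0 ≤ A i j)
    (hirr : Irr A) (hs : 0 < s) (h : IsSol (prof A) s q qt) (hq : q ≠ 0) :
    (∀ i, 0 < q i) ∧ (∀ i, 0 < qt i) ∧ (∀ i, 0 < ((prof A)ᵀ *ᵥ q) i) ∧ (∀ i, 0 < (prof A *ᵥ qt) i) := by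
  have hn : ∀ _ : Fin n, (0 : ℝ) < n := fun i => by
    have : 0 < n := lt_of_le_of_lt (Nat.zero_le _) i.isLt
    exact_mod_cast this
  have hV : ∀ i j, 0 ≤ prof A i j := fun i j => by
    simp only [prof, Matrix.of_apply]; positivity
  have hVp : ∀ i j, 0 < A i j → 0 < prof A i j := fun i j hij => by
    have := hn i
    simp only [prof, Matrix.of_apply]; positivity
  have hw0 : ∀ i, 0 ≤ ((prof A)ᵀ *ᵥ q) i := fun i => by
    show 0 ≤ ∑ j, prof A j i * q j
    exact Finset.sum_nonneg fun j _ => mul_nonneg (hV j i) (h.nonneg_q j)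
  have hu0 : ∀ i, 0 ≤ (prof A *ᵥ qt) i := fun i => by
    show 0 ≤ ∑ j, prof A i j * qt j
    exact Finset.sum_nonneg fun j _ => mul_nonneg (hV i j) (h.nonneg_qt j)
  have hd : ∀ i, 0 < s ^ 2 + (prof A *ᵥ qt) i * ((prof A)ᵀ *ᵥ q) i := fun i => by
    have := mul_nonneg (hu0 i) (hw0 i)
    positivity
  have stepq : ∀ a b, 0 < A a b → 0 < q a → 0 < q b := by
    intro a b hab ha
    rw [h.eq_q b]
    refine div_pos ?_ (hd b)
    refine lt_of_lt_of_le (mul_pos (hVp a b hab) ha) ?_
    exact Finset.single_le_sum (f := fun j => prof A j b * q j)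
      (fun j _ => mul_nonneg (hV j b) (h.nonneg_q j)) (Finset.mem_univ a)
  have stept : ∀ a b, 0 < A a b → 0 < qt b → 0 < qt a := by
    intro a b hab hb
    rw [h.eq_qt a]
    refine div_pos ?_ (hd a)
    refine lt_of_lt_of_le (mul_pos (hVp a b hab) hb) ?_
    exact Finset.single_le_sum (f := fun j => prof A a j * qt j)
      (fun j _ => mul_nonneg (hV a j) (h.nonneg_qt j)) (Finset.mem_univ b)
  obtain ⟨a, ha⟩ : ∃ a, 0 < q a := by
    by_contra hcon
    push Not at hcon
    exact hq (funext fun i => le_antisymm (hcon i) (h.nonneg_q i))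
  obtain ⟨b, hb⟩ : ∃ b, 0 < qt b := by
    by_contra hcon
    push Not at hcon
    have h1 : ∑ i, qt i = 0 := Finset.sum_eq_zero fun i _ => le_antisymm (hcon i) (h.nonneg_qt i)
    have h2 : 0 < ∑ i, q i := lt_of_lt_of_le ha
      (Finset.single_le_sum (fun i _ => h.nonneg_q i) (Finset.mem_univ a))
    rw [h.sum_eq, h1] at h2
    exact lt_irrefl _ h2
  have hqp : ∀ i, 0 < q i := fun i => by
    have hr := hirr a i
    induction hr with
    | refl => exact ha
    | tail _ hbc ih => exact stepq _ _ hbc ih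
  have hqtp : ∀ i, 0 < qt i := fun i => by
    have hr := hirr i b
    induction hr using Relation.ReflTransGen.head_induction_on with
    | refl => exact hb
    | head hac _ ih => exact stept _ _ hac ih
  refine ⟨hqp, hqtp, fun i => ?_, fun i => ?_⟩
  · refine lt_of_le_of_ne (hw0 i) fun hc => ?_
    have := h.eq_q i
    rw [← hc, zero_div] at this
    exact (hqp i).ne' this
  · refine lt_of_le_of_ne (hu0 i) fun hc => ?_
    have := h.eq_qt i
    rw [← hc, zero_div] at this
    exact (hqtp i).ne' this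

/-- `F` is strictly increasing along positive solutions. -/
theorem FF_lt {A : Matrix (Fin n) (Fin n) ℝ} {s s' : ℝ} {q qt q' qt' : Fin n → ℝ}
    (hA : ∀ i j, 0 ≤ A i j) (hirr : Irr A) (hs : 0 < s) (hss : s < s')
    (h : IsSol (prof A) s q qt) (hq : q ≠ 0) (h' : IsSol (prof A) s' q' qt') (hq' : q' ≠ 0) :
    FF (prof A) q qt < FF (prof A) q' qt' := by
  have hs' : 0 < s' := hs.trans hss
  obtain ⟨p1, p2, p3, p4⟩ := h.pos hA hirr hs hq
  obtain ⟨p1', p2', p3', p4'⟩ := h'.pos hA hirr hs' hq'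
  have hV : ∀ i j, 0 ≤ prof A i j := fun i j => by
    simp only [prof, Matrix.of_apply]; positivity
  obtain ⟨i0, hi0⟩ : ∃ i0, q i0 ≠ 0 := by
    by_contra hcon
    push Not at hcon
    exact hq (funext hcon)
  have hn : (0 : ℝ) < n := by
    have : 0 < n := lt_of_le_of_lt (Nat.zero_le _) i0.isLt
    exact_mod_cast this
  set w := (prof A)ᵀ *ᵥ q with hw
  set u := prof A *ᵥ qt with hu
  set w' := (prof A)ᵀ *ᵥ q' with hw'
  set u' := prof A *ᵥ qt' with hu'
  set z : Fin n → ℝ := fun i => 1 / (s ^ 2 + u i * w i) with hz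
  set z' : Fin n → ℝ := fun i => 1 / (s' ^ 2 + u' i * w' i) with hz'
  have hd : ∀ i, 0 < s ^ 2 + u i * w i := fun i => by
    have := mul_pos (p4 i) (p3 i)
    positivity
  have hd' : ∀ i, 0 < s' ^ 2 + u' i * w' i := fun i => by
    have := mul_pos (p4' i) (p3' i)
    positivity
  have zp : ∀ i, 0 < z i := fun i => one_div_pos.2 (hd i)
  have zp' : ∀ i, 0 < z' i := fun i => one_div_pos.2 (hd' i)
  have eq1 : ∀ i, q i = z i * w i := fun i => by
    rw [h.eq_q i, hz]; simp only; ring
  have eq2 : ∀ i, qt i = z i * u i := fun i => by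
    rw [h.eq_qt i, hz]; simp only; ring
  have eq1' : ∀ i, q' i = z' i * w' i := fun i => by
    rw [h'.eq_q i, hz']; simp only; ring
  have eq2' : ∀ i, qt' i = z' i * u' i := fun i => by
    rw [h'.eq_qt i, hz']; simp only; ring
  have pi1 : ∀ i, w i * qt i = 1 - s ^ 2 * z i := fun i => by
    have e : z i * (s ^ 2 + u i * w i) = 1 := one_div_mul_cancel (hd i).ne'
    rw [eq2]
    linear_combination e
  have pi1' : ∀ i, w' i * qt' i = 1 - s' ^ 2 * z' i := fun i => by
    have e : z' i * (s' ^ 2 + u' i * w' i) = 1 := one_div_mul_cancel (hd' i).ne'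
    rw [eq2']
    linear_combination e
  have I1 := jensen (prof A) hV qt qt' w z z' p2 p2' p3 zp zp' eq2 eq2' (fun j => by
    rw [hw]
    show ∑ i, prof A i j * q i = _
    exact Finset.sum_congr rfl fun i _ => by rw [eq1 i])
  have I2 := jensen (prof A) hV qt' qt w' z' z p2' p2 p3' zp' zp eq2' eq2 (fun j => by
    rw [hw']
    show ∑ i, prof A i j * q' i = _
    exact Finset.sum_congr rfl fun i _ => by rw [eq1' i])
  set a : Fin n → ℝ := fun i => s ^ 2 * z i with ha
  set a' : Fin n → ℝ := fun i => s' ^ 2 * z' i with ha'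
  have ap : ∀ i, 0 < a i := fun i => mul_pos (by positivity) (zp i)
  have ap' : ∀ i, 0 < a' i := fun i => mul_pos (by positivity) (zp' i)
  set L : ℝ := Real.log (s' ^ 2) - Real.log (s ^ 2) with hL
  have hLp : 0 < L := by
    have : Real.log (s ^ 2) < Real.log (s' ^ 2) :=
      Real.log_lt_log (by positivity) (pow_lt_pow_left₀ hss hs.le (by norm_num))
    linarith
  have lz : ∀ i, Real.log (z' i) - Real.log (z i) = Real.log (a' i) - Real.log (a i) - L := fun i => by
    rw [ha, ha']
    simp only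
    rw [Real.log_mul (by positivity) (zp i).ne', Real.log_mul (by positivity) (zp' i).ne']
    ring
  have J1 : ∑ i, (1 - a i) * (Real.log (a' i) - Real.log (a i) - L) ≤ 0 := by
    refine le_trans (le_of_eq ?_) I1
    exact Finset.sum_congr rfl fun i _ => by rw [pi1 i, lz i]
  have J2 : ∑ i, (1 - a' i) * (-(Real.log (a' i) - Real.log (a i) - L)) ≤ 0 := by
    refine le_trans (le_of_eq ?_) I2
    exact Finset.sum_congr rfl fun i _ => by
      rw [pi1' i, ← lz i]; ring
  have J3 : ∑ i, (a' i - a i) * (Real.log (a' i) - Real.log (a i)) ≤ L * ∑ i, (a' i - a i) := by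
    have := add_le_add J1 J2
    rw [← Finset.sum_add_distrib] at this
    have e : ∀ i, (1 - a i) * (Real.log (a' i) - Real.log (a i) - L) +
        (1 - a' i) * (-(Real.log (a' i) - Real.log (a i) - L)) =
        (a' i - a i) * (Real.log (a' i) - Real.log (a i)) - L * (a' i - a i) := fun i => by ring
    rw [Finset.sum_congr rfl fun i _ => e i, Finset.sum_sub_distrib, ← Finset.mul_sum] at this
    linarith
  have hterm : ∀ i ∈ (Finset.univ : Finset (Fin n)),
      0 ≤ (a' i - a i) * (Real.log (a' i) - Real.log (a i)) := by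
    intro i _
    rcases le_total (a i) (a' i) with hle | hle
    · exact mul_nonneg (by linarith) (by have := Real.log_le_log (ap i) hle; linarith)
    · exact mul_nonneg_of_nonpos_of_nonpos (by linarith)
        (by have := Real.log_le_log (ap' i) hle; linarith)
  have hgt : 0 < ∑ i, (a' i - a i) := by
    by_contra hcon
    push Not at hcon
    have h0 : ∑ i, (a' i - a i) * (Real.log (a' i) - Real.log (a i)) = 0 :=
      le_antisymm (J3.trans (mul_nonpos_of_nonneg_of_nonpos hLp.le hcon)) (Finset.sum_nonneg hterm)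
    have h1 := (Finset.sum_eq_zero_iff_of_nonneg hterm).1 h0
    have h2 : ∀ i, a' i = a i := by
      intro i
      rcases mul_eq_zero.1 (h1 i (Finset.mem_univ i)) with h3 | h3
      · linarith
      · exact Real.log_injOn_pos (Set.mem_Ioi.2 (ap' i)) (Set.mem_Ioi.2 (ap i)) (by linarith)
    have h3 : ∑ i, (1 - a' i) * (-(Real.log (a' i) - Real.log (a i) - L)) = L * ∑ i, (1 - a' i) := by
      rw [Finset.mul_sum]
      exact Finset.sum_congr rfl fun i _ => by rw [h2 i]; ring
    rw [h3] at J2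
    have h4 : 0 < ∑ i, (1 - a' i) := by
      refine Finset.sum_pos (fun i _ => ?_) ⟨i0, Finset.mem_univ i0⟩
      have := pi1' i
      have hp := mul_pos (p3' i) (p2' i)
      rw [this] at hp
      exact hp
    have := mul_pos hLp h4
    linarith
  have F1 : FF (prof A) q qt = 1 - (1 / (n : ℝ)) * ∑ i, (1 - a i) := by
    unfold FF
    congr 2
    exact Finset.sum_congr rfl fun i _ => by
      rw [← pi1 i, eq1 i, eq2 i]; ring
  have F2 : FF (prof A) q' qt' = 1 - (1 / (n : ℝ)) * ∑ i, (1 - a' i) := by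
    unfold FF
    congr 2
    exact Finset.sum_congr rfl fun i _ => by
      rw [← pi1' i, eq1' i, eq2' i]; ring
  rw [F1, F2]
  have h5 : ∑ i, (1 - a' i) < ∑ i, (1 - a i) := by
    have : ∑ i, (1 - a i) - ∑ i, (1 - a' i) = ∑ i, (a' i - a i) := by
      rw [← Finset.sum_sub_distrib]
      exact Finset.sum_congr rfl fun i _ => by ring
    linarith
  have h6 : 0 < 1 / (n : ℝ) := by positivity
  nlinarith [mul_lt_mul_of_pos_left h5 h6]

end

end Pool.Agent.X145.Sup
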