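import Pool.Agent.X145.Sup.Core

set_option autoImplicit false
open MeasureTheory Filter Topology Matrix
open scoped ENNReal NNReal

namespace Pool.Agent.X145.Sup

section
attribute [local instance] Matrix.linftyOpNormedRing Matrix.linftyOpNormedAlgebra

variable {n : ℕ}

/-- Collatz–Wielandt -/
theorem le_rho (V : Matrix (Fin n) (Fin n) ℝ) (hV : ∀ i j, 0 ≤ V i j) (x : Fin n → ℝ)
    (hx : ∀ i, 0 < x i) (i0 : Fin n) (lam : ℝ) (hlam : 0 < lam)
    (h : ∀ i, lam * x i ≤ (V *ᵥ x) i) : lam ≤ rho V := by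
  set W : Matrix (Fin n) (Fin n) ℂ := V.map (fun x : ℝ => (x : ℂ)) with hW
  set xc : Fin n → ℂ := fun i => (x i : ℂ) with hxc
  have hpow : ∀ k : ℕ, ∀ i, lam ^ k * x i ≤ ((V ^ k) *ᵥ x) i := by
    intro k
    induction k with
    | zero => intro i; simp
    | succ k ih =>
      intro i
      rw [pow_succ', pow_succ', ← Matrix.mulVec_mulVec]
      have h1 : lam * (lam ^ k * x i) ≤ (V *ᵥ (fun j => lam ^ k * x j)) i := by
        have : (V *ᵥ (fun j => lam ^ k * x j)) i = lam ^ k * (V *ᵥ x) i := by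
          show ∑ j, V i j * (lam ^ k * x j) = lam ^ k * ∑ j, V i j * x j
          rw [Finset.mul_sum]
          exact Finset.sum_congr rfl fun j _ => by ring
        rw [this]
        have := mul_le_mul_of_nonneg_left (h i) (pow_nonneg hlam.le k)
        linarith
      have h2 : (V *ᵥ (fun j => lam ^ k * x j)) i ≤ (V *ᵥ ((V ^ k) *ᵥ x)) i := by
        show ∑ j, V i j * (lam ^ k * x j) ≤ ∑ j, V i j * ((V ^ k) *ᵥ x) j
        exact Finset.sum_le_sum fun j _ => mul_le_mul_of_nonneg_left (ih j) (hV i j)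
      calc lam * lam ^ k * x i = lam * (lam ^ k * x i) := by ring
        _ ≤ _ := h1.trans h2
  have hWpow : ∀ k : ℕ, W ^ k = (V ^ k).map (fun x : ℝ => (x : ℂ)) := by
    intro k
    have := (Matrix.map_pow V Complex.ofRealHom k)
    exact this.symm
  have hmv : ∀ k : ℕ, ∀ i, ((W ^ k) *ᵥ xc) i = ((((V ^ k) *ᵥ x) i : ℝ) : ℂ) := by
    intro k i
    rw [hWpow]
    show ∑ j, (((V ^ k) i j : ℝ) : ℂ) * (x j : ℂ) = ((∑ j, (V ^ k) i j * x j : ℝ) : ℂ)
    push_cast
    rfl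
  have hxn : 0 < ‖xc‖ := by
    rw [norm_pos_iff]
    intro hc
    have : xc i0 = 0 := by rw [hc]; rfl
    rw [hxc] at this
    simp only [Complex.ofReal_eq_zero] at this
    exact (hx i0).ne' this
  have hnorm : ∀ k : ℕ, x i0 / ‖xc‖ * lam ^ k ≤ ‖W ^ k‖ := by
    intro k
    have h1 : ‖((W ^ k) *ᵥ xc) i0‖ ≤ ‖W ^ k‖ * ‖xc‖ :=
      (norm_le_pi_norm _ i0).trans (Matrix.linfty_opNorm_mulVec _ _)
    rw [hmv, Complex.norm_real] at h1
    have h2 := (hpow k i0).trans ((le_abs_self _).trans h1)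
    rw [div_mul_eq_mul_div, div_le_iff₀ hxn]
    linarith
  have hG := spectrum.pow_norm_pow_one_div_tendsto_nhds_spectralRadius W
  have hc : 0 < x i0 / ‖xc‖ := div_pos (hx i0) hxn
  have hlow : Tendsto (fun k : ℕ => ENNReal.ofReal ((x i0 / ‖xc‖) ^ (1 / (k : ℝ)) * lam)) atTop
      (𝓝 (ENNReal.ofReal lam)) := by
    have h1 : Tendsto (fun k : ℕ => (x i0 / ‖xc‖) ^ (1 / (k : ℝ)) * lam) atTop (𝓝 (1 * lam)) := by
      refine Tendsto.mul_const _ ?_
      have h2 : Tendsto (fun k : ℕ => (x i0 / ‖xc‖) ^ (1 / (k : ℝ))) atTop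
          (𝓝 ((x i0 / ‖xc‖) ^ (0 : ℝ))) :=
        (Real.continuousAt_const_rpow (a := x i0 / ‖xc‖) (b := 0) hc.ne').tendsto.comp
          tendsto_one_div_atTop_nhds_zero_nat
      rwa [Real.rpow_zero] at h2
    rw [one_mul] at h1
    exact (ENNReal.continuous_ofReal.tendsto _).comp h1
  have hle : ENNReal.ofReal lam ≤ spectralRadius ℂ W := by
    refine le_of_tendsto_of_tendsto hlow hG ?_
    filter_upwards [eventually_gt_atTop 0] with k hk
    refine ENNReal.ofReal_le_ofReal ?_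
    have hk' : (0 : ℝ) < k := by exact_mod_cast hk
    have h1 := Real.rpow_le_rpow (by positivity) (hnorm k) (by positivity : 0 ≤ 1 / (k : ℝ))
    rw [Real.mul_rpow hc.le (by positivity), ← Real.rpow_natCast, ← Real.rpow_mul hlam.le,
      mul_one_div_cancel hk'.ne', Real.rpow_one] at h1
    exact h1
  have hfin : spectralRadius ℂ W ≠ ⊤ := by
    refine ((spectrum.spectralRadius_le_pow_nnnorm_pow_one_div ℂ W 0).trans_lt ?_).ne
    exact ENNReal.mul_lt_top (ENNReal.rpow_lt_top_of_nonneg (by positivity) ENNReal.coe_ne_top)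
      (ENNReal.rpow_lt_top_of_nonneg (by positivity) ENNReal.coe_ne_top)
  unfold rho
  rw [← ENNReal.toReal_ofReal hlam.le]
  exact ENNReal.toReal_mono hfin hle

end

variable {n : ℕ}

/-- for `s ≥ √ρ` the only solution is zero -/
theorem IsSol.lt_rho {A : Matrix (Fin n) (Fin n) ℝ} {s : ℝ} {q qt : Fin n → ℝ}
    (hA : ∀ i j, 0 ≤ A i j) (hirr : Irr A) (hs : 0 < s) (h : IsSol (prof A) s q qt) (hq : q ≠ 0) :
    s ^ 2 < rho (prof A) := by
  obtain ⟨p1, p2, p3, p4⟩ := h.pos hA hirr hs hq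
  have hV : ∀ i j, 0 ≤ prof A i j := fun i j => by
    simp only [prof, Matrix.of_apply]; positivity
  obtain ⟨i0, hi0⟩ : ∃ i0, q i0 ≠ 0 := by
    by_contra hcon
    push Not at hcon
    exact hq (funext hcon)
  obtain ⟨i1, -, hi1⟩ := Finset.exists_min_image (Finset.univ : Finset (Fin n))
    (fun i => (prof A *ᵥ qt) i * ((prof A)ᵀ *ᵥ q) i) ⟨i0, Finset.mem_univ _⟩
  set δ := (prof A *ᵥ qt) i1 * ((prof A)ᵀ *ᵥ q) i1 with hδ
  have hδp : 0 < δ := mul_pos (p4 i1) (p3 i1)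
  have := le_rho (prof A) hV qt p2 i0 (s ^ 2 + δ) (by positivity) (fun i => by
    have hd : 0 < s ^ 2 + (prof A *ᵥ qt) i * ((prof A)ᵀ *ᵥ q) i := by
      have := mul_pos (p4 i) (p3 i)
      positivity
    have e : qt i * (s ^ 2 + (prof A *ᵥ qt) i * ((prof A)ᵀ *ᵥ q) i) = (prof A *ᵥ qt) i := by
      have := h.eq_qt i
      rw [eq_div_iff hd.ne'] at this
      exact this
    rw [← e, mul_comm (qt i)]
    exact mul_le_mul_of_nonneg_right (by have := hi1 i (Finset.mem_univ i); linarith) (p2 i).le)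
  linarith

end Pool.Agent.X145.Sup
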